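import Mathlib

set_option autoImplicit false
open Filter Topology Finset

namespace Pool.Agent.Results.MP_af7016_co.Half

/-- `F` is a `k`-term geometric progression of positive integers whose ratio lies in `R`. -/
def IsGP (R : Set ℚ) (k : ℕ) (F : Finset ℕ) : Prop :=
  ∃ (a : ℕ) (r : ℚ), 0 < a ∧ r ∈ R ∧
    F.image (fun n : ℕ => (n : ℚ)) = (range k).image (fun i => (a : ℚ) * r ^ i)

/-- Least size of a family of such progressions covering `{1, ..., N}`. -/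
noncomputable def m (R : Set ℚ) (k N : ℕ) : ℕ :=
  sInf {n | ∃ C : Finset (Finset ℕ), C.card = n ∧ (∀ F ∈ C, IsGP R k F) ∧
    ∀ x ∈ Icc 1 N, ∃ F ∈ C, x ∈ F}

private def gp (k a : ℕ) : Finset ℕ := (range k).image (fun i => a * 2 ^ i)

private theorem gp_is (R : Set ℚ) (h2 : (2 : ℚ) ∈ R) (k a : ℕ) (ha : 0 < a) :
    IsGP R k (gp k a) := by
  refine ⟨a, 2, ha, h2, ?_⟩
  unfold gp
  rw [Finset.image_image]
  congr 1
  ext i
  simp

private theorem upper (R : Set ℚ) (h2 : (2 : ℚ) ∈ R) (k N : ℕ) (hk : 1 ≤ k) :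
    ∃ C : Finset (Finset ℕ), C.card ≤ (N + 1) / 2 + N / 2 ^ k ∧ (∀ F ∈ C, IsGP R k F) ∧
      ∀ x ∈ Icc 1 N, ∃ F ∈ C, x ∈ F := by
  refine ⟨(range ((N + 1) / 2)).image (fun j => gp k (2 * j + 1)) ∪
    (range (N / 2 ^ k)).image (fun j => gp k (2 ^ k * (j + 1))), ?_, ?_, ?_⟩
  · refine (card_union_le _ _).trans (add_le_add ?_ ?_) <;>
      exact card_image_le.trans (card_range _).le
  · intro F hF
    rcases mem_union.mp hF with h | h <;> obtain ⟨j, -, rfl⟩ := mem_image.mp h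
    · exact gp_is R h2 k _ (by omega)
    · exact gp_is R h2 k _ (by positivity)
  · intro x hx
    rw [mem_Icc] at hx
    obtain ⟨e, b, hb, rfl⟩ := Nat.exists_eq_two_pow_mul_odd (by omega : x ≠ 0)
    obtain ⟨j, rfl⟩ := hb
    by_cases he : e < k
    · refine ⟨gp k (2 * j + 1), mem_union_left _ (mem_image.mpr ⟨j, ?_, rfl⟩),
        mem_image.mpr ⟨e, mem_range.mpr he, by ring⟩⟩
      have : 2 * j + 1 ≤ 2 ^ e * (2 * j + 1) := Nat.le_mul_of_pos_left _ (by positivity)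
      rw [mem_range]; omega
    · obtain ⟨d, rfl⟩ := Nat.exists_eq_add_of_le (not_lt.mp he)
      have hp : 0 < 2 ^ d * (2 * j + 1) := by positivity
      refine ⟨gp k (2 ^ k * (2 ^ d * (2 * j + 1) - 1 + 1)), mem_union_right _
        (mem_image.mpr ⟨_, ?_, rfl⟩), mem_image.mpr ⟨0, mem_range.mpr hk, ?_⟩⟩
      · rw [mem_range]
        have : 2 ^ d * (2 * j + 1) ≤ N / 2 ^ k := by
          rw [Nat.le_div_iff_mul_le (by positivity)]
          calc _ = 2 ^ (k + d) * (2 * j + 1) := by ring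
            _ ≤ N := hx.2
        omega
      · rw [Nat.sub_add_cancel hp]; ring

private theorem mem_gp {k a : ℕ} {r : ℚ} {F : Finset ℕ}
    (h : F.image (fun n : ℕ => (n : ℚ)) = (range k).image (fun i => (a : ℚ) * r ^ i))
    {x : ℕ} (hx : x ∈ F) : ∃ i < k, (x : ℚ) = a * r ^ i := by
  have : (x : ℚ) ∈ F.image (fun n : ℕ => (n : ℚ)) := mem_image_of_mem _ hx
  rw [h] at this
  obtain ⟨i, hi, e⟩ := mem_image.mp this
  exact ⟨i, mem_range.mp hi, e.symm⟩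

private theorem frac {t a : ℕ} {r : ℚ} {F : Finset ℕ} {k : ℕ} (hk : 2 * t + 1 ≤ k) (hr : 1 < r)
    (hd : r.den ≠ 1)
    (h : F.image (fun n : ℕ => (n : ℚ)) = (range k).image (fun i => (a : ℚ) * r ^ i))
    {x : ℕ} (hx : x ∈ F) : ∃ q, 2 ≤ q ∧ q ^ t ∣ x := by
  obtain ⟨i, hi, e⟩ := mem_gp h hx
  have hpos : 0 < r.num := Rat.num_pos.mpr (by linarith)
  set q := r.num.natAbs with hq
  set p := r.den with hp
  have hqz : (q : ℤ) = r.num := Int.natAbs_of_nonneg hpos.le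
  have hp0 : (p : ℚ) ≠ 0 := by exact_mod_cast r.den_ne_zero
  have hrq : r = (q : ℚ) / p := by
    have : (q : ℚ) = (r.num : ℚ) := by exact_mod_cast hqz
    rw [this]; exact (Rat.num_div_den r).symm
  have cop : Nat.Coprime q p := r.reduced
  have hp2 : 2 ≤ p := by have := r.den_pos; omega
  have hq2 : 2 ≤ q := by
    rw [hrq, lt_div_iff₀ (by positivity), one_mul] at hr
    have : p < q := by exact_mod_cast hr
    omega
  have e1 : x * p ^ i = a * q ^ i := by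
    have : (x : ℚ) * (p : ℚ) ^ i = a * (q : ℚ) ^ i := by
      rw [e, hrq, div_pow]; field_simp
    exact_mod_cast this
  by_cases hit : t ≤ i
  · refine ⟨q, hq2, ?_⟩
    have : q ^ i ∣ x * p ^ i := ⟨a, by rw [e1]; ring⟩
    exact (pow_dvd_pow q hit).trans ((Nat.Coprime.pow i i cop).dvd_of_dvd_mul_right this)
  · refine ⟨p, hp2, ?_⟩
    have hmem : (a : ℚ) * r ^ (i + t) ∈ F.image (fun n : ℕ => (n : ℚ)) := by
      rw [h]; exact mem_image.mpr ⟨i + t, mem_range.mpr (by omega), rfl⟩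
    obtain ⟨y, -, ey⟩ := mem_image.mp hmem
    have e2 : y * p ^ t = x * q ^ t := by
      have : (y : ℚ) * (p : ℚ) ^ t = x * (q : ℚ) ^ t := by
        rw [ey, pow_add, ← mul_assoc, ← e, hrq, div_pow]; field_simp
      exact_mod_cast this
    have : p ^ t ∣ x * q ^ t := ⟨y, by rw [← e2]; ring⟩
    exact (Nat.Coprime.pow t t cop.symm).dvd_of_dvd_mul_right this

private theorem intg {a : ℕ} {r : ℚ} {F : Finset ℕ} {k : ℕ} (ha : 0 < a) (hr : 1 < r)
    (hd : r.den = 1)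
    (h : F.image (fun n : ℕ => (n : ℚ)) = (range k).image (fun i => (a : ℚ) * r ^ i))
    {x y : ℕ} (hx : x ∈ F) (hy : y ∈ F) (hxy : x < y) : 2 * x ≤ y := by
  obtain ⟨i, -, e⟩ := mem_gp h hx
  obtain ⟨j, -, f⟩ := mem_gp h hy
  have hr2 : 2 ≤ r := by
    have e : r = (r.num : ℚ) := ((Rat.den_eq_one_iff r).mp hd).symm
    rw [e] at hr ⊢
    have : 1 < r.num := by exact_mod_cast hr
    have : 2 ≤ r.num := by omega
    exact_mod_cast this
  have ha' : (0 : ℚ) < a := by exact_mod_cast ha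
  have hij : i < j := by
    have : (a : ℚ) * r ^ i < a * r ^ j := by rw [← e, ← f]; exact_mod_cast hxy
    exact (pow_lt_pow_iff_right₀ hr).mp (lt_of_mul_lt_mul_left this ha'.le)
  have : (2 : ℚ) * x ≤ y := by
    rw [e, f]
    calc 2 * (a * r ^ i) ≤ r * (a * r ^ i) := by gcongr
      _ = a * r ^ (i + 1) := by ring
      _ ≤ a * r ^ j := by gcongr; exacts [hr.le, hij]
  exact_mod_cast this

open Classical in
private theorem bad (s N : ℕ) :
    (((Icc 1 N).filter (fun x => ∃ q, 2 ≤ q ∧ q ^ (s + 2) ∣ x)).card : ℝ) ≤ N / 2 ^ s := by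
  have h1 : (Icc 1 N).filter (fun x => ∃ q, 2 ≤ q ∧ q ^ (s + 2) ∣ x) ⊆
      (Ioc 1 N).biUnion (fun q => (Ioc 0 N).filter (fun x => q ^ (s + 2) ∣ x)) := by
    intro x hx
    obtain ⟨hx, q, hq, hd⟩ := mem_filter.mp hx
    rw [mem_Icc] at hx
    refine mem_biUnion.mpr ⟨q, mem_Ioc.mpr ⟨hq, ?_⟩, mem_filter.mpr ⟨mem_Ioc.mpr hx, hd⟩⟩
    exact (Nat.le_self_pow (by omega) q).trans ((Nat.le_of_dvd hx.1 hd).trans hx.2)
  have h2 := (card_le_card h1).trans card_biUnion_le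
  have h3 : ∀ q ∈ Ioc 1 N, ((((Ioc 0 N).filter (fun x => q ^ (s + 2) ∣ x)).card : ℕ) : ℝ) ≤
      N / 2 ^ s * ((q : ℝ) ^ 2)⁻¹ := by
    intro q hq
    rw [Nat.Ioc_filter_dvd_card_eq_div]
    have hq2 : (2 : ℝ) ≤ q := by exact_mod_cast (mem_Ioc.mp hq).1
    refine Nat.cast_div_le.trans ?_
    push_cast
    rw [pow_add, ← div_div, div_eq_mul_inv]
    gcongr
  calc _ ≤ ((∑ q ∈ Ioc 1 N, ((Ioc 0 N).filter (fun x => q ^ (s + 2) ∣ x)).card : ℕ) : ℝ) := by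
        exact_mod_cast h2
    _ ≤ ∑ q ∈ Ioc 1 N, (N : ℝ) / 2 ^ s * ((q : ℝ) ^ 2)⁻¹ := by
        push_cast; exact sum_le_sum h3
    _ = (N : ℝ) / 2 ^ s * ∑ q ∈ Ioc 1 N, ((q : ℝ) ^ 2)⁻¹ := by rw [mul_sum]
    _ ≤ (N : ℝ) / 2 ^ s * 1 := by
        rcases Nat.eq_zero_or_pos N with rfl | hN
        · simp
        · gcongr
          refine (sum_Ioc_inv_sq_le_sub one_ne_zero hN).trans ?_
          have : (0 : ℝ) ≤ (N : ℝ)⁻¹ := by positivity
          simp only [Nat.cast_one, inv_one]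
          linarith
    _ = _ := mul_one _

private theorem lower (R : Set ℚ) (hR : ∀ r ∈ R, 1 < r) (s k N : ℕ) (hk : 2 * (s + 2) + 1 ≤ k)
    (C : Finset (Finset ℕ)) (hC : ∀ F ∈ C, IsGP R k F) (hc : ∀ x ∈ Icc 1 N, ∃ F ∈ C, x ∈ F) :
    (N : ℝ) / 2 - N / 2 ^ s ≤ C.card := by
  classical
  set B := (Icc 1 N).filter (fun x => ∃ q, 2 ≤ q ∧ q ^ (s + 2) ∣ x) with hB
  set G := Ioc (N / 2) N \ B with hG
  have hsub : ∀ x ∈ G, x ∈ Icc 1 N := by
    intro x hx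
    have := mem_Ioc.mp (mem_sdiff.mp hx).1
    rw [mem_Icc]; omega
  choose! f hf1 hf2 using hc
  have key : ∀ x ∈ G, ∀ y ∈ G, f x = f y → ¬ x < y := by
    intro x hx y hy e hxy
    obtain ⟨a, r, ha, hr, h⟩ := hC _ (hf1 x (hsub x hx))
    by_cases hd : r.den = 1
    · have := intg ha (hR r hr) hd h (hf2 x (hsub x hx)) (e ▸ hf2 y (hsub y hy)) hxy
      have h1 := mem_Ioc.mp (mem_sdiff.mp hx).1
      have h2 := mem_Ioc.mp (mem_sdiff.mp hy).1
      omega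
    · exact (mem_sdiff.mp hx).2 (mem_filter.mpr ⟨hsub x hx,
        frac hk (hR r hr) hd h (hf2 x (hsub x hx))⟩)
  have h1 : G.card ≤ C.card := by
    refine card_le_card_of_injOn f (fun x hx => hf1 x (hsub x hx)) ?_
    intro x hx y hy e
    exact le_antisymm (not_lt.mp (key y hy x hx e.symm)) (not_lt.mp (key x hx y hy e))
  have h2 : N - N / 2 ≤ G.card + B.card := by
    rw [← Nat.card_Ioc]
    exact card_le_card_sdiff_add_card
  have h3 : N ≤ 2 * (C.card + B.card) := by omega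
  have h4 : (N : ℝ) ≤ 2 * (C.card + B.card) := by exact_mod_cast h3
  have h5 := bad s N
  linarith

private theorem bounds (R : Set ℚ) (h2 : (2 : ℚ) ∈ R) (hR : ∀ r ∈ R, 1 < r) (s k : ℕ)
    (hk : 2 * (s + 2) + 1 ≤ k) :
    ∀ᶠ N : ℕ in atTop, 1 / 2 - 2 / 2 ^ s ≤ (m R k N : ℝ) / N ∧
      (m R k N : ℝ) / N ≤ 1 / 2 + 2 / 2 ^ s := by
  filter_upwards [eventually_ge_atTop (2 ^ s)] with N hN
  have hN' : (2 : ℝ) ^ s ≤ N := by exact_mod_cast hN
  have hp : (0 : ℝ) < 2 ^ s := by positivity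
  have hN0 : (0 : ℝ) < N := hp.trans_le hN'
  obtain ⟨C, hC, g1, g2⟩ := upper R h2 k N (by omega)
  have hle : m R k N ≤ C.card := Nat.sInf_le ⟨C, rfl, g1, g2⟩
  obtain ⟨D, hD, d1, d2⟩ := Nat.sInf_mem (s := {n | ∃ C : Finset (Finset ℕ), C.card = n ∧
    (∀ F ∈ C, IsGP R k F) ∧ ∀ x ∈ Icc 1 N, ∃ F ∈ C, x ∈ F}) ⟨_, C, rfl, g1, g2⟩
  have hq : (1 : ℝ) ≤ N / 2 ^ s := by rw [le_div_iff₀ hp]; linarith
  constructor
  · have := lower R hR s k N hk D d1 d2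
    rw [hD] at this
    rw [le_div_iff₀ hN0]
    change _ ≤ (m R k N : ℝ) at this
    have e : (1 / 2 - 2 / 2 ^ s) * (N : ℝ) = N / 2 - 2 * (N / 2 ^ s) := by ring
    linarith
  · rw [div_le_iff₀ hN0]
    have a1 : (((N + 1) / 2 : ℕ) : ℝ) ≤ (N + 1) / 2 := by
      refine Nat.cast_div_le.trans ?_
      push_cast; exact le_rfl
    have a2 : ((N / 2 ^ k : ℕ) : ℝ) ≤ N / 2 ^ s := by
      refine Nat.cast_div_le.trans ?_
      push_cast
      gcongr
      · norm_num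
      · omega
    have a3 : (m R k N : ℝ) ≤ (((N + 1) / 2 : ℕ) : ℝ) + ((N / 2 ^ k : ℕ) : ℝ) := by
      exact_mod_cast hle.trans hC
    have e : (1 / 2 + 2 / 2 ^ s) * (N : ℝ) = N / 2 + 2 * (N / 2 ^ s) := by ring
    linarith

theorem result (R : Set ℚ) (hN : ∀ n : ℕ, 2 ≤ n → (n : ℚ) ∈ R) (hR : ∀ r ∈ R, 1 < r) :
    Tendsto (fun k => liminf (fun N : ℕ => (m R k N : ℝ) / N) atTop) atTop (𝓝 (1 / 2)) ∧
    Tendsto (fun k => limsup (fun N : ℕ => (m R k N : ℝ) / N) atTop) atTop (𝓝 (1 / 2)) := by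
  have h2 : (2 : ℚ) ∈ R := by exact_mod_cast hN 2 le_rfl
  have key : ∀ s k : ℕ, 2 * (s + 2) + 1 ≤ k →
      1 / 2 - 2 / 2 ^ s ≤ liminf (fun N : ℕ => (m R k N : ℝ) / N) atTop ∧
      liminf (fun N : ℕ => (m R k N : ℝ) / N) atTop ≤
        limsup (fun N : ℕ => (m R k N : ℝ) / N) atTop ∧
      limsup (fun N : ℕ => (m R k N : ℝ) / N) atTop ≤ 1 / 2 + 2 / 2 ^ s := by
    intro s k hk
    have hb := bounds R h2 hR s k hk
    have b1 : IsBoundedUnder (· ≤ ·) atTop (fun N : ℕ => (m R k N : ℝ) / N) :=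
      ⟨_, eventually_map.mpr (hb.mono fun N h => h.2)⟩
    have b2 : IsBoundedUnder (· ≥ ·) atTop (fun N : ℕ => (m R k N : ℝ) / N) :=
      ⟨_, eventually_map.mpr (hb.mono fun N h => h.1)⟩
    exact ⟨le_liminf_of_le b1.isCoboundedUnder_ge (hb.mono fun N h => h.1),
      liminf_le_limsup b1 b2,
      limsup_le_of_le b2.isCoboundedUnder_le (hb.mono fun N h => h.2)⟩
  have small : ∀ ε : ℝ, 0 < ε → ∃ s : ℕ, 2 / 2 ^ s < ε := by
    intro ε hε
    obtain ⟨s, hs⟩ := pow_unbounded_of_one_lt (2 / ε) (one_lt_two (α := ℝ))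
    refine ⟨s, ?_⟩
    rw [div_lt_iff₀ hε] at hs
    rw [div_lt_iff₀ (by positivity)]
    linarith
  constructor <;> rw [Metric.tendsto_atTop] <;> intro ε hε <;> obtain ⟨s, hs⟩ := small ε hε <;>
    refine ⟨2 * (s + 2) + 1, fun k hk => ?_⟩ <;> obtain ⟨k1, k2, k3⟩ := key s k hk <;>
    rw [Real.dist_eq, abs_lt] <;> constructor <;> linarith

end Pool.Agent.Results.MP_af7016_co.Half
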